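import Pool.Agent.Lib.MP_90aff6_co.CT.Iface

set_option autoImplicit false

/-!
The stable inequality: `Works t (r + s) (k + s) (d + s)` implies `Works t r k d`.
-/

namespace Pool.Agent.Lib.MP_90aff6_co.Stable

open Pool.Agent.Lib.MP_90aff6_co.CT (Works)

section Aux

variable {d : ℕ}

/-- The point `(x, h)` of `ℝ ^ (d + 1)`. -/
noncomputable def up (x : EuclideanSpace ℝ (Fin d)) (h : ℝ) : EuclideanSpace ℝ (Fin (d + 1)) :=
  WithLp.toLp 2 (Fin.snoc (α := fun _ => ℝ) (fun i => x i) h)

/-- Forget the last coordinate. -/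
noncomputable def pr : EuclideanSpace ℝ (Fin (d + 1)) →ₗ[ℝ] EuclideanSpace ℝ (Fin d) where
  toFun z := WithLp.toLp 2 (fun i => z i.castSucc)
  map_add' x y := by ext i; simp
  map_smul' c x := by ext i; simp

/-- The last coordinate. -/
noncomputable def ht : EuclideanSpace ℝ (Fin (d + 1)) →ₗ[ℝ] ℝ where
  toFun z := z (Fin.last d)
  map_add' x y := by simp
  map_smul' c x := by simp

@[simp] lemma pr_up (x : EuclideanSpace ℝ (Fin d)) (h : ℝ) : pr (up x h) = x := by
  ext i; simp [pr, up]

@[simp] lemma ht_up (x : EuclideanSpace ℝ (Fin d)) (h : ℝ) : ht (up x h) = h := by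
  change (up x h) (Fin.last d) = h
  simp [up]

lemma up_injective (h : ℝ) : Function.Injective (fun x : EuclideanSpace ℝ (Fin d) => up x h) :=
  fun x y hxy => by
    have := congrArg pr hxy
    simpa using this

/-- Almost common points of the hulls: a choice of points `y i` in the hulls with mutual
distances at most `ε`. -/
def Near {r k : ℕ} (a : Fin r → Fin (k + 1) → EuclideanSpace ℝ (Fin d)) (ε : ℝ) : Prop :=
  ∃ y : Fin r → EuclideanSpace ℝ (Fin d),
    (∀ i, y i ∈ convexHull ℝ (Set.range (a i))) ∧ ∀ i j, dist (y i) (y j) ≤ ε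

/-- Almost common points for every `ε` give a common point (compactness). -/
lemma common_of_near {r k : ℕ} (a : Fin r → Fin (k + 1) → EuclideanSpace ℝ (Fin d))
    (h : ∀ ε > 0, Near a ε) : (⋂ i, convexHull ℝ (Set.range (a i))).Nonempty := by
  classical
  set K : Set (Fin r → EuclideanSpace ℝ (Fin d)) :=
    Set.pi Set.univ (fun i => convexHull ℝ (Set.range (a i))) with hK
  have hKc : IsCompact K :=
    isCompact_univ_pi (fun i => (Set.finite_range (a i)).isCompact_convexHull ℝ)
  have hKn : K.Nonempty := by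
    obtain ⟨y, hy, -⟩ := h 1 one_pos
    exact ⟨y, fun i _ => hy i⟩
  set G : (Fin r → EuclideanSpace ℝ (Fin d)) → ℝ := fun y => ∑ i, ∑ j, dist (y i) (y j) with hG
  have hGc : Continuous G := by
    refine continuous_finset_sum _ (fun i _ => continuous_finset_sum _ (fun j _ => ?_))
    exact (continuous_apply i).dist (continuous_apply j)
  obtain ⟨y, hyK, hymin⟩ := hKc.exists_isMinOn hKn hGc.continuousOn
  have hG0 : G y ≤ 0 := by
    refine le_of_forall_pos_le_add (fun η hη => ?_)
    set R : ℝ := (r : ℝ) * r + 1 with hR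
    have hRpos : 0 < R := by positivity
    obtain ⟨z, hz, hzd⟩ := h (η / R) (by positivity)
    have h1 : G y ≤ G z := hymin (fun i _ => hz i)
    have h2 : G z ≤ (r : ℝ) * r * (η / R) := by
      calc G z ≤ ∑ _i : Fin r, ∑ _j : Fin r, η / R :=
            Finset.sum_le_sum (fun i _ => Finset.sum_le_sum (fun j _ => hzd i j))
        _ = (r : ℝ) * r * (η / R) := by simp; ring
    have h3 : (r : ℝ) * r * (η / R) ≤ η := by
      rw [mul_div_assoc', div_le_iff₀ hRpos, hR]
      nlinarith
    linarith
  have hall : ∀ i j, y i = y j := by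
    intro i j
    have hnn : ∀ i ∈ (Finset.univ : Finset (Fin r)), 0 ≤ ∑ j, dist (y i) (y j) :=
      fun i _ => Finset.sum_nonneg (fun j _ => dist_nonneg)
    have h0 : G y = 0 := le_antisymm hG0 (Finset.sum_nonneg hnn)
    have h1 := (Finset.sum_eq_zero_iff_of_nonneg hnn).1 h0 i (Finset.mem_univ _)
    have h2 := (Finset.sum_eq_zero_iff_of_nonneg (fun j _ => dist_nonneg)).1 h1 j
      (Finset.mem_univ _)
    exact dist_eq_zero.1 h2
  rcases isEmpty_or_nonempty (Fin r) with hr | ⟨⟨i0⟩⟩
  · exact ⟨0, Set.mem_iInter.2 (fun i => hr.elim i)⟩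
  · exact ⟨y i0, Set.mem_iInter.2 (fun i => by rw [hall i0 i]; exact hyK i (Set.mem_univ _))⟩

/-- The height of the `l`-th apex. -/
noncomputable def apex (d : ℕ) (M : ℝ) (l : ℕ) : EuclideanSpace ℝ (Fin (d + 1)) :=
  up 0 (M ^ (l + 1))

end Aux

/-- The main approximation step. -/
lemma exists_near {t r k d : ℕ} (hW : Works t (r + 1) (k + 1) (d + 1))
    (C : Fin (k + 1) → Finset (EuclideanSpace ℝ (Fin d)))
    (hdisj : ∀ i j, i ≠ j → Disjoint (C i) (C j)) (hcard : ∀ i, t ≤ (C i).card)
    (ε : ℝ) (hε : 0 < ε) :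
    ∃ a : Fin r → Fin (k + 1) → EuclideanSpace ℝ (Fin d),
      (∀ i j, a i j ∈ C j) ∧
      Function.Injective (fun p : Fin r × Fin (k + 1) => a p.1 p.2) ∧ Near a ε := by
  classical
  -- a bound for all the points
  obtain ⟨R, hR0, hR⟩ : ∃ R : ℝ, 0 < R ∧ ∀ j, ∀ x ∈ C j, ‖x‖ ≤ R := by
    refine ⟨∑ j, ∑ x ∈ C j, ‖x‖ + 1, by positivity, fun j x hx => ?_⟩
    have h1 : ‖x‖ ≤ ∑ x ∈ C j, ‖x‖ := Finset.single_le_sum (fun y _ => norm_nonneg y) hx
    have h2 : ∑ x ∈ C j, ‖x‖ ≤ ∑ j, ∑ x ∈ C j, ‖x‖ :=
      Finset.single_le_sum (f := fun j => ∑ x ∈ C j, ‖x‖)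
        (fun j _ => Finset.sum_nonneg (fun y _ => norm_nonneg y)) (Finset.mem_univ j)
    linarith
  obtain ⟨M, hM1, hM⟩ : ∃ M : ℝ, 1 < M ∧ 2 * R / M ≤ ε := by
    refine ⟨2 * R / ε + 1, by linarith [show 0 < 2 * R / ε by positivity], ?_⟩
    rw [div_le_iff₀ (by positivity)]
    have : ε * (2 * R / ε + 1) = 2 * R + ε := by field_simp
    linarith
  have hM0 : 0 < M := by linarith
  -- the new colouring
  set C' : Fin (k + 1 + 1) → Finset (EuclideanSpace ℝ (Fin (d + 1))) :=
    Fin.snoc (α := fun _ => Finset (EuclideanSpace ℝ (Fin (d + 1))))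
      (fun j => (C j).image (fun x => up x 0)) ((Finset.range t).image (apex d M)) with hC'
  have hC'c : ∀ j : Fin (k + 1), C' j.castSucc = (C j).image (fun x => up x 0) := by
    intro j; simp [hC']
  have hC'l : C' (Fin.last (k + 1)) = (Finset.range t).image (apex d M) := by simp [hC']
  have hht : ∀ l, ht (apex d M l) = M ^ (l + 1) := fun l => by simp [apex]
  have hinj : Function.Injective (apex d M) := by
    intro l l' hl
    have h1 : M ^ (l + 1) = M ^ (l' + 1) := by rw [← hht, ← hht, hl]
    have h2 := pow_right_injective₀ hM0 (ne_of_gt hM1) h1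
    omega
  have hd1 : ∀ j : Fin (k + 1), Disjoint (C' j.castSucc) (C' (Fin.last (k + 1))) := by
    intro j
    rw [hC'c, hC'l, Finset.disjoint_left]
    intro z hz hz'
    obtain ⟨x, -, rfl⟩ := Finset.mem_image.1 hz
    obtain ⟨l, -, hl⟩ := Finset.mem_image.1 hz'
    have := congrArg ht hl
    rw [hht, ht_up] at this
    exact (pow_pos hM0 (l + 1)).ne' this
  obtain ⟨a', ha'C, ha'inj, z, hz⟩ := hW C' (by
    intro i j hij
    induction i using Fin.lastCases with
    | last =>
      induction j using Fin.lastCases with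
      | last => exact absurd rfl hij
      | cast j => exact (hd1 j).symm
    | cast i =>
      induction j using Fin.lastCases with
      | last => exact hd1 i
      | cast j =>
        rw [hC'c, hC'c]
        refine (Finset.disjoint_image (up_injective 0)).2 (hdisj i j ?_)
        rintro rfl
        exact hij rfl) (by
    intro i
    induction i using Fin.lastCases with
    | last => rw [hC'l, Finset.card_image_of_injective _ hinj, Finset.card_range]
    | cast i => rw [hC'c, Finset.card_image_of_injective _ (up_injective 0)]; exact hcard i)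
  have hl : ∀ i, ∃ l, apex d M l = a' i (Fin.last (k + 1)) := by
    intro i
    have := ha'C i (Fin.last (k + 1))
    rw [hC'l] at this
    obtain ⟨l, -, hl⟩ := Finset.mem_image.1 this
    exact ⟨l, hl⟩
  choose l hl using hl
  have hb : ∀ i j, ∃ x ∈ C j, up x 0 = a' i (Fin.castSucc j) := by
    intro i j
    have := ha'C i j.castSucc
    rw [hC'c] at this
    obtain ⟨x, hx, hx'⟩ := Finset.mem_image.1 this
    exact ⟨x, hx, hx'⟩
  choose b hbC hb using hb
  have hlinj : Function.Injective l := by
    intro i i' hii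
    have h1 : a' i (Fin.last (k + 1)) = a' i' (Fin.last (k + 1)) := by rw [← hl, ← hl, hii]
    have h2 := @ha'inj (i, Fin.last (k + 1)) (i', Fin.last (k + 1)) h1
    exact (Prod.mk.inj h2).1
  have hbinj : ∀ i i' j j', b i j = b i' j' → i = i' ∧ j = j' := by
    intro i i' j j' h
    have h1 : a' i j.castSucc = a' i' j'.castSucc := by rw [← hb, ← hb, h]
    have h2 := @ha'inj (i, j.castSucc) (i', j'.castSucc) h1
    have h3 := Prod.mk.inj h2
    exact ⟨h3.1, Fin.castSucc_injective _ h3.2⟩
  -- decompose the common point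
  have hdec : ∀ i, ∃ y ∈ convexHull ℝ (Set.range (b i)), ∃ s : ℝ, 0 ≤ s ∧ s ≤ 1 ∧
      pr z = (1 - s) • y ∧ ht z = s * M ^ (l i + 1) := by
    intro i
    have hzi : z ∈ convexHull ℝ (Set.range (a' i)) := Set.mem_iInter.1 hz i
    have hrange : Set.range (a' i) =
        insert (apex d M (l i)) (Set.range (fun j => up (b i j) 0)) := by
      ext w
      constructor
      · rintro ⟨j, rfl⟩
        induction j using Fin.lastCases with
        | last => left; exact (hl i).symm
        | cast j => right; exact ⟨j, hb i j⟩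
      · rintro (rfl | ⟨j, rfl⟩)
        · exact ⟨_, (hl i).symm⟩
        · exact ⟨_, (hb i j).symm⟩
    rw [hrange, convexHull_insert (Set.range_nonempty _), convexJoin_singleton_left] at hzi
    obtain ⟨y', hy', s, s', hs, hs', hss, hzs⟩ := by
      simpa only [Set.mem_iUnion, exists_prop] using hzi
    have hy'b : pr y' ∈ convexHull ℝ (Set.range (b i)) ∧ ht y' = 0 := by
      have h1 : pr y' ∈ pr '' convexHull ℝ (Set.range (fun j => up (b i j) 0)) := ⟨y', hy', rfl⟩
      rw [LinearMap.image_convexHull, ← Set.range_comp] at h1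
      have h2 : ht y' ∈ ht '' convexHull ℝ (Set.range (fun j => up (b i j) 0)) := ⟨y', hy', rfl⟩
      rw [LinearMap.image_convexHull, ← Set.range_comp] at h2
      constructor
      · convert h1 using 3
        ext j; simp
      · have h3 : Set.range (⇑ht ∘ fun j => up (b i j) 0) = {0} := by
          ext w; simp [eq_comm]
        rw [h3, convexHull_singleton] at h2
        exact h2
    refine ⟨pr y', hy'b.1, s, hs, by linarith, ?_, ?_⟩
    · rw [← hzs, map_add, map_smul, map_smul, apex, pr_up, smul_zero, zero_add]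
      congr 1; linarith
    · rw [← hzs, map_add, map_smul, map_smul, hht, hy'b.2]
      simp
  choose y hy s hs0 hs1 hpr hhz using hdec
  obtain ⟨i0, hi0⟩ := Finite.exists_min l
  have hynorm : ∀ i, ‖y i‖ ≤ R := by
    intro i
    have : convexHull ℝ (Set.range (b i)) ⊆ Metric.closedBall 0 R := by
      refine convexHull_min ?_ (convex_closedBall 0 R)
      rintro _ ⟨j, rfl⟩
      rw [mem_closedBall_zero_iff]
      exact hR j _ (hbC i j)
    have h2 := this (hy i)
    rwa [mem_closedBall_zero_iff] at h2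
  have hsmall : ∀ i, i ≠ i0 → s i ≤ 1 / M := by
    intro i hi
    have hlt : l i0 < l i := lt_of_le_of_ne (hi0 i) (fun h => hi (hlinj h).symm)
    have h1 : s i * M ^ (l i + 1) ≤ M ^ (l i0 + 1) := by
      rw [← hhz i, hhz i0]
      have := pow_pos hM0 (l i0 + 1)
      nlinarith [hs1 i0]
    have h2 : M ^ (l i0 + 1) * M ≤ M ^ (l i + 1) := by
      rw [← pow_succ]
      exact pow_le_pow_right₀ hM1.le (by omega)
    have h3 : 0 < M ^ (l i0 + 1) := pow_pos hM0 _
    rw [le_div_iff₀ hM0]
    by_contra hcon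
    push Not at hcon
    have h4 : M ^ (l i0 + 1) < (s i * M) * M ^ (l i0 + 1) := by nlinarith
    have h5 : (s i * M) * M ^ (l i0 + 1) ≤ s i * M ^ (l i + 1) := by
      nlinarith [hs0 i]
    linarith
  have hdist : ∀ i, i ≠ i0 → dist (y i) (pr z) ≤ R / M := by
    intro i hi
    have h1 : y i - pr z = s i • y i := by rw [hpr i]; module
    rw [dist_eq_norm, h1, norm_smul, Real.norm_eq_abs, abs_of_nonneg (hs0 i)]
    calc s i * ‖y i‖ ≤ (1 / M) * R :=
          mul_le_mul (hsmall i hi) (hynorm i) (norm_nonneg _) (by positivity)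
      _ = R / M := by ring
  refine ⟨fun i j => b (i0.succAbove i) j, fun i j => hbC _ j, ?_, fun i => y (i0.succAbove i),
    fun i => hy _, ?_⟩
  · rintro ⟨i, j⟩ ⟨i', j'⟩ h
    obtain ⟨h1, h2⟩ := hbinj _ _ _ _ h
    have h3 := Fin.succAbove_right_injective h1
    exact Prod.ext h3 h2
  · intro i j
    calc dist (y (i0.succAbove i)) (y (i0.succAbove j))
        ≤ dist (y (i0.succAbove i)) (pr z) + dist (y (i0.succAbove j)) (pr z) :=
          dist_triangle_right _ _ _
      _ ≤ R / M + R / M :=
          add_le_add (hdist _ (Fin.succAbove_ne i0 i)) (hdist _ (Fin.succAbove_ne i0 j))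
      _ = 2 * R / M := by ring
      _ ≤ ε := hM

/-- One step of the inequality. -/
lemma works_step {t r k d : ℕ} (hW : Works t (r + 1) (k + 1) (d + 1)) : Works t r k d := by
  classical
  intro C hdisj hcard
  by_contra hcon
  -- the finite set of candidate families
  set S : Set (Fin r → Fin (k + 1) → EuclideanSpace ℝ (Fin d)) :=
    {a | (∀ i j, a i j ∈ C j) ∧
      Function.Injective (fun p : Fin r × Fin (k + 1) => a p.1 p.2)} with hS
  have hSfin : S.Finite := by
    refine (Set.Finite.pi' (fun _ : Fin r => Set.Finite.pi'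
      (fun j : Fin (k + 1) => (C j).finite_toSet))).subset ?_
    rintro a ⟨ha, -⟩ i j
    exact ha i j
  have hfar : ∀ a ∈ S, ∃ ε > 0, ¬ Near a ε := by
    intro a ha
    by_contra h
    push Not at h
    exact hcon ⟨a, ha.1, ha.2, common_of_near a h⟩
  choose! e he0 he using hfar
  obtain ⟨a0, ha0C, ha0i, -⟩ := exists_near hW C hdisj hcard 1 one_pos
  obtain ⟨a1, ha1, hmin⟩ := hSfin.exists_minimalFor e S ⟨a0, ha0C, ha0i⟩
  obtain ⟨a, haC, hai, y, hy, hyd⟩ := exists_near hW C hdisj hcard (e a1) (he0 a1 ha1)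
  have haS : a ∈ S := ⟨haC, hai⟩
  have hle : e a1 ≤ e a := by
    rcases le_total (e a1) (e a) with h | h
    · exact h
    · exact hmin haS h
  exact he a haS ⟨y, hy, fun i j => (hyd i j).trans hle⟩

lemma works_steps {t r k d : ℕ} (s : ℕ) (hW : Works t (r + s) (k + s) (d + s)) :
    Works t r k d := by
  induction s with
  | zero => exact hW
  | succ s ih => exact ih (works_step hW)

end Pool.Agent.Lib.MP_90aff6_co.Stable
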